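import Pool.Agent.H89.KBX.SLPa
import Pool.Agent.H40.KBX.CEL

/-!
# Row SLP of the board kbx: slopes
-/

set_option autoImplicit false

namespace Pool.KBX

open Finset Real MeasureTheory
open Pool.Agent.H49.Ent Pool.Agent.H32.Dense Pool.STK Pool.KAF Pool.KAL Pool.KS3

namespace SLP

/-- The line, the window and the cell. -/
def tr {n : ℕ} {Ω Λ Ξ : Type} (L u : ℕ) (lam : Ω → Λ) (x : Ω → Ξ) (T : Ξ → ℕ)
    (pos : Ξ → Option (Fin n) → ℕ) (ω : Ω) : (Λ × ℕ) × (Option (Fin n) → ℕ) :=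
  ((lam ω, T (x ω) / 2 ^ (L - u)), cel (2 ^ (L - u)) pos (x ω))

/-- The thin incidences. -/
def Thin {n : ℕ} {Ω Λ Ξ : Type} [Fintype Ω] (L u : ℕ) (θ : ℝ) (p : Ω → ℝ) (lam : Ω → Λ)
    (x : Ω → Ξ) (T : Ξ → ℕ) (pos : Ξ → Option (Fin n) → ℕ) (μ : Λ → ℝ) : Set Ω :=
  {ω | law p (tr L u lam x T pos) (tr L u lam x T pos ω) < θ * (μ (lam ω) / 2 ^ u)}

/-- The thin incidences have a small probability. -/
lemma thin_mass (n : ℕ) (C₀ : ℝ) (hC₀ : 1 ≤ C₀) : ∃ K : ℝ, 1 ≤ K ∧
    ∀ (Ω Λ Ξ : Type) [Fintype Ω] (p : Ω → ℝ) (lam : Ω → Λ) (x : Ω → Ξ) (T : Ξ → ℕ)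
      (pos : Ξ → Option (Fin n) → ℕ) (A B : Λ → Option (Fin n) → ℝ) (μ : Λ → ℝ) (L u : ℕ)
      (θ : ℝ), Leaf n (2 ^ L) C₀ p lam x T pos A B → u ≤ L → 0 ≤ θ → (∀ l, 0 ≤ μ l) →
      (∀ F : Finset Λ, ∑ l ∈ F, μ l ≤ 1) →
      Pr p (Thin L u θ p lam x T pos μ) ≤ K * θ := by
  classical
  refine ⟨((2 * (⌈2 * C₀⌉₊ + 2) + 2) ^ (n + 1) : ℕ), ?_, ?_⟩
  · exact_mod_cast Nat.one_le_pow _ _ (by omega)
  intro Ω Λ Ξ _ p lam x T pos A B μ L u θ hl hu hθ hμ hμ1
  have hp0 := hl.isLaw.nonneg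
  set t := tr L u lam x T pos with ht
  set g : (Λ × ℕ) × (Option (Fin n) → ℕ) → ℝ := fun v =>
    if law p t v < θ * (μ v.1.1 / 2 ^ u) then 1 else 0 with hg
  have h0 : Pr p (Thin L u θ p lam x T pos μ) = ∑ ω, p ω * g (t ω) := by
    rw [CDF.Pr_eq]
    refine Finset.sum_congr rfl fun ω _ => ?_
    by_cases h : ω ∈ Thin L u θ p lam x T pos μ
    · have h' : law p t (t ω) < θ * (μ (t ω).1.1 / 2 ^ u) := h
      rw [if_pos h, hg]
      simp only
      rw [if_pos h', mul_one]
    · have h' : ¬ law p t (t ω) < θ * (μ (t ω).1.1 / 2 ^ u) := h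
      rw [if_neg h, hg]
      simp only
      rw [if_neg h', mul_zero]
  rw [h0, sum_mul_eq_sum_image p t g]
  set ZA : Finset (Λ × ℕ) := univ.image (fun ω => (lam ω, T (x ω) / 2 ^ (L - u))) with hZA
  set 𝒞 : Finset (Option (Fin n) → ℕ) := univ.image (fun ω => cel (2 ^ (L - u)) pos (x ω))
    with h𝒞
  have hf : ∀ z : Λ × ℕ, 0 ≤ μ z.1 / 2 ^ u := fun z => div_nonneg (hμ _) (by positivity)
  have hsub : univ.image t ⊆ ZA ×ˢ 𝒞 := by
    intro v hv
    obtain ⟨ω, -, rfl⟩ := Finset.mem_image.1 hv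
    rw [Finset.mem_product]
    exact ⟨Finset.mem_image_of_mem _ (Finset.mem_univ _),
      Finset.mem_image_of_mem _ (Finset.mem_univ _)⟩
  have h1 : ∀ v ∈ univ.image t, law p t v * g v ≤
      if v.1 ∈ Pool.Agent.H40.KBX.Zc L u p lam x T pos v.2 then θ * (μ v.1.1 / 2 ^ u) else 0 := by
    intro v _
    rcases (law_nonneg hp0 t v).eq_or_lt with h2 | h2
    · rw [← h2, zero_mul]
      split_ifs
      exacts [mul_nonneg hθ (hf _), le_rfl]
    · have h3 : v.1 ∈ Pool.Agent.H40.KBX.Zc L u p lam x T pos v.2 := by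
        by_contra hcon
        have h4 : law p t v = 0 := by
          unfold law
          refine Finset.sum_eq_zero fun ω _ => ?_
          by_cases h5 : t ω = v
          · rw [if_pos h5]
            by_contra h6
            refine hcon ?_
            unfold Pool.Agent.H40.KBX.Zc
            rw [Finset.mem_image]
            refine ⟨ω, ?_, ?_⟩
            · rw [Finset.mem_filter]
              exact ⟨Finset.mem_univ _, lt_of_le_of_ne (hp0 ω) (Ne.symm h6),
                congrArg Prod.snd h5⟩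
            · exact congrArg Prod.fst h5
          · rw [if_neg h5]
        rw [h4] at h2
        exact lt_irrefl _ h2
      rw [if_pos h3, hg]
      simp only
      split_ifs with h4
      · rw [mul_one]
        exact h4.le
      · rw [mul_zero]
        exact mul_nonneg hθ (hf _)
  refine (Finset.sum_le_sum h1).trans ?_
  refine (Finset.sum_le_sum_of_subset_of_nonneg hsub fun v _ _ => by
    split_ifs
    exacts [mul_nonneg hθ (hf _), le_rfl]).trans ?_
  rw [Finset.sum_product_right]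
  have h2 : ∀ c ∈ 𝒞, ∑ z ∈ ZA, (if (z, c).1 ∈ Pool.Agent.H40.KBX.Zc L u p lam x T pos (z, c).2
      then θ * (μ (z, c).1.1 / 2 ^ u) else 0) ≤
      θ * ∑ z ∈ Pool.Agent.H40.KBX.Zc L u p lam x T pos c, μ z.1 / 2 ^ u := by
    intro c _
    rw [← Finset.sum_filter, Finset.mul_sum]
    refine Finset.sum_le_sum_of_subset_of_nonneg ?_ fun z _ _ => mul_nonneg hθ (hf _)
    intro z hz
    exact (Finset.mem_filter.1 hz).2
  refine (Finset.sum_le_sum h2).trans ?_
  rw [← Finset.mul_sum, mul_comm]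
  exact mul_le_mul_of_nonneg_right
    (Pool.Agent.H40.KBX.nu_sum hl hC₀ hu hμ hμ1 𝒞) hθ

/-- The times of a thick incidence. -/
lemma times {n : ℕ} {Ω Λ Ξ : Type} [Fintype Ω] {p : Ω → ℝ} {lam : Ω → Λ} {x : Ω → Ξ}
    {T : Ξ → ℕ} {pos : Ξ → Option (Fin n) → ℕ} {μ : Λ → ℝ} {L u : ℕ} {θ e₁ : ℝ}
    (hp0 : ∀ ω, 0 ≤ p ω) (hu : u ≤ L)
    (ht : ∀ ω, law p (fun ω => (lam ω, T (x ω))) (lam ω, T (x ω)) ≤
      Real.exp e₁ * μ (lam ω) / 2 ^ L) {ω : Ω} (hω : 0 < p ω)
    (hthick : ω ∉ Thin L u θ p lam x T pos μ) :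
    ∃ E : Finset ℕ, θ * Real.exp (-e₁) * 2 ^ (L - u) ≤ E.card ∧
      ∀ s ∈ E, ∃ ω', 0 < p ω' ∧ lam ω' = lam ω ∧ T (x ω') = s ∧
        T (x ω') / 2 ^ (L - u) = T (x ω) / 2 ^ (L - u) ∧
        cel (2 ^ (L - u)) pos (x ω') = cel (2 ^ (L - u)) pos (x ω) := by
  classical
  set t := tr L u lam x T pos with htr
  set F : Finset Ω := univ.filter (fun ω' => 0 < p ω' ∧ t ω' = t ω) with hF
  set E : Finset ℕ := F.image (fun ω' => T (x ω')) with hE
  refine ⟨E, ?_, ?_⟩
  · have h1 : law p t (t ω) = ∑ ω' ∈ F, p ω' := by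
      unfold law
      rw [hF, Finset.sum_filter]
      refine Finset.sum_congr rfl fun ω' _ => ?_
      by_cases h2 : t ω' = t ω
      · rw [if_pos h2]
        by_cases h3 : 0 < p ω'
        · rw [if_pos ⟨h3, h2⟩]
        · rw [if_neg (fun h => h3 h.1)]
          exact le_antisymm (not_lt.1 h3) (hp0 ω')
      · rw [if_neg h2, if_neg (fun h => h2 h.2)]
    have h2 : ∑ ω' ∈ F, p ω' = ∑ s ∈ E, ∑ ω' ∈ F.filter (fun ω' => T (x ω') = s), p ω' :=
      (Finset.sum_fiberwise_of_maps_to (fun ω' hω' => Finset.mem_image_of_mem _ hω') _).symm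
    have h3 : ∀ s ∈ E, ∑ ω' ∈ F.filter (fun ω' => T (x ω') = s), p ω' ≤
        Real.exp e₁ * μ (lam ω) / 2 ^ L := by
      intro s hs
      obtain ⟨ω₁, hω₁, hs1⟩ := Finset.mem_image.1 hs
      have hl1 : lam ω₁ = lam ω := congrArg (fun v => v.1.1) (Finset.mem_filter.1 hω₁).2.2
      have h4 := ht ω₁
      rw [hl1] at h4
      refine le_trans ?_ h4
      unfold law
      have h5 : ∑ ω' ∈ F.filter (fun ω' => T (x ω') = s), p ω' =
          ∑ ω' ∈ F.filter (fun ω' => T (x ω') = s),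
            (if (fun ω => (lam ω, T (x ω))) ω' = (lam ω, T (x ω₁)) then p ω' else 0) := by
        refine Finset.sum_congr rfl fun ω' hω' => ?_
        have h5 := Finset.mem_filter.1 hω'
        have h6 : lam ω' = lam ω := congrArg (fun v => v.1.1) (Finset.mem_filter.1 h5.1).2.2
        have h7 : (fun ω => (lam ω, T (x ω))) ω' = (lam ω, T (x ω₁)) := by
          show (lam ω', T (x ω')) = (lam ω, T (x ω₁))
          rw [h6, h5.2]
          exact congrArg (Prod.mk (lam ω)) hs1.symm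
        rw [if_pos h7]
      rw [h5]
      refine (Finset.sum_le_sum_of_subset_of_nonneg (Finset.subset_univ _)
        fun ω' _ _ => ?_).trans (le_of_eq ?_)
      · split_ifs
        exacts [hp0 ω', le_rfl]
      · refine Finset.sum_congr rfl fun ω' _ => ?_
        congr
    have h4 : law p t (t ω) ≤ E.card * (Real.exp e₁ * μ (lam ω) / 2 ^ L) := by
      rw [h1, h2]
      refine (Finset.sum_le_sum h3).trans ?_
      rw [Finset.sum_const, nsmul_eq_mul]
    have h5 : θ * (μ (lam ω) / 2 ^ u) ≤ law p t (t ω) := not_lt.1 hthick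
    have hμ : 0 < μ (lam ω) := by
      have h6 := lt_of_lt_of_le (law_pos hp0 (fun ω => (lam ω, T (x ω))) hω) (ht ω)
      by_contra hcon
      have : Real.exp e₁ * μ (lam ω) / 2 ^ L ≤ 0 :=
        div_nonpos_of_nonpos_of_nonneg
          (mul_nonpos_of_nonneg_of_nonpos (Real.exp_pos _).le (not_lt.1 hcon)) (by positivity)
      linarith
    have hLu : (2 : ℝ) ^ (L - u) * 2 ^ u = 2 ^ L := by
      rw [← pow_add]
      congr 1
      omega
    have h6 := h5.trans h4
    rw [← hLu] at h6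
    have h7 : (E.card : ℝ) * (Real.exp e₁ * μ (lam ω) / (2 ^ (L - u) * 2 ^ u)) =
        (E.card * Real.exp e₁ / 2 ^ (L - u)) * (μ (lam ω) / 2 ^ u) := by
      field_simp
    rw [h7] at h6
    have h8 := le_of_mul_le_mul_right h6 (by positivity)
    rw [le_div_iff₀ (by positivity)] at h8
    have h9 := mul_le_mul_of_nonneg_right h8 (Real.exp_pos (-e₁)).le
    rw [mul_assoc (E.card : ℝ), ← Real.exp_add, add_neg_cancel, Real.exp_zero, mul_one] at h9
    linarith
  · intro s hs
    obtain ⟨ω', hω', hs1⟩ := Finset.mem_image.1 hs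
    obtain ⟨-, h1, h2⟩ := Finset.mem_filter.1 hω'
    exact ⟨ω', h1, congrArg (fun v => v.1.1) h2, hs1, congrArg (fun v => v.1.2) h2,
      congrArg Prod.snd h2⟩

/-- A point is in its cell. -/
lemma in_cell {n : ℕ} {Ξ : Type} {L u : ℕ} (hu : u ≤ L) (pos : Ξ → Option (Fin n) → ℕ) (ξ : Ξ)
    (i : Fin n) : |rp (2 ^ L) pos ξ (some i) - cc L u pos ξ i| ≤ 1 / 2 ^ u := by
  have hr : (0 : ℝ) < 2 ^ (L - u) := by positivity
  have hLu : (2 : ℝ) ^ (L - u) * 2 ^ u = 2 ^ L := by
    rw [← pow_add]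
    congr 1
    omega
  have h1 := Nat.div_add_mod (pos ξ (some i)) (2 ^ (L - u))
  have h2 := Nat.mod_lt (pos ξ (some i)) (show 0 < 2 ^ (L - u) by positivity)
  set q := pos ξ (some i) / 2 ^ (L - u) with hq
  set m := pos ξ (some i) % 2 ^ (L - u) with hm
  have h3 : (pos ξ (some i) : ℝ) = q * 2 ^ (L - u) + m := by
    have : pos ξ (some i) = q * 2 ^ (L - u) + m := by rw [mul_comm]; exact h1.symm
    exact_mod_cast this
  have h4 : (m : ℝ) ≤ 2 ^ (L - u) := by exact_mod_cast h2.le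
  have h5 : (0 : ℝ) ≤ m := Nat.cast_nonneg m
  have h6 : rp (2 ^ L) pos ξ (some i) - cc L u pos ξ i = m / 2 ^ L := by
    have e1 : rp (2 ^ L) pos ξ (some i) = (pos ξ (some i) : ℝ) / 2 ^ L := by
      unfold rp
      push_cast
      rfl
    have e2 : cc L u pos ξ i = (q : ℝ) * 2 ^ (L - u) / 2 ^ L := by
      unfold cc crn cel
      push_cast
      rfl
    rw [e1, e2, h3]
    ring
  rw [h6, abs_of_nonneg (by positivity), div_le_div_iff₀ (by positivity) (by positivity), ← hLu]
  nlinarith [pow_pos (show (0 : ℝ) < 2 by norm_num) u]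

end SLP

set_option maxHeartbeats 1000000 in
theorem slp_thm : SLPStmt := by
  classical
  intro n d C₀ δ hC₀ hδ
  obtain ⟨K, hK, hmass⟩ := SLP.thin_mass n C₀ hC₀
  set θ : ℝ := 1 / (16 * K) with hθ
  have hθ0 : 0 < θ := by positivity
  obtain ⟨C₁', hC₁', hcore⟩ := SLP.core n d C₀ δ θ hC₀ hδ hθ0
  set M₀ : ℝ := 1 + 2 * (C₀ + 1) / δ with hM₀
  have hM₀0 : 0 ≤ 2 * (C₀ + 1) / δ := by positivity
  obtain ⟨C₁, hC₁⟩ : ∃ C₁ : ℝ, C₁ = C₁' + M₀ + 1 + 4 * n := ⟨_, rfl⟩
  have hn0 : (0 : ℝ) ≤ n := Nat.cast_nonneg n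
  refine ⟨C₁, by linarith, ?_⟩
  intro Ω Λ Ξ _ p lam x T pos A B μ i₀ G L L' u s ε e₁ e₃ hS hT hL' hu hG hs hε hlog
  have hp := hS.leaf.isLaw
  have hp0 := hp.nonneg
  have huL : u ≤ L := hu.trans hL'
  set Bd : Set Ω := SLP.Thin L u θ p lam x T pos μ with hBd
  have hBd1 : Pr p Bd ≤ 1 / 16 := by
    refine (hmass Ω Λ Ξ p lam x T pos A B μ L u θ hS.leaf huL hθ0.le hS.μ_nonneg
      hS.μ_sum).trans (le_of_eq ?_)
    rw [hθ]
    field_simp
  refine ⟨{ξ | Pr (Pool.Agent.H49.Ent.cond p x ξ) Bd ≤ 1 / 4}, ?_, ?_⟩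
  · have h1 := CDF.Ex_Pr hp0 x Bd
    have h2 := CDF.markov hp0 (fun ω => Pr (Pool.Agent.H49.Ent.cond p x (x ω)) Bd)
      (fun ω _ => by
        rw [CDF.Pr_eq]
        refine Finset.sum_nonneg fun ω' _ => ?_
        split_ifs
        exacts [cond_nonneg hp0 _ _ _, le_rfl]) (1 / 4)
    rw [h1] at h2
    have h3 : Pr p {ω | x ω ∈ {ξ | Pr (Pool.Agent.H49.Ent.cond p x ξ) Bd ≤ 1 / 4}} +
        Pr p {ω | 1 / 4 < Pr (Pool.Agent.H49.Ent.cond p x (x ω)) Bd} = 1 := by
      rw [CDF.Pr_eq, CDF.Pr_eq, ← Finset.sum_add_distrib]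
      refine Eq.trans ?_ hp.sum_one
      refine Finset.sum_congr rfl fun ω _ => ?_
      by_cases h : Pr (Pool.Agent.H49.Ent.cond p x (x ω)) Bd ≤ 1 / 4
      · have hn : ω ∉ {ω | 1 / 4 < Pr (Pool.Agent.H49.Ent.cond p x (x ω)) Bd} := fun h' =>
          absurd (show 1 / 4 < Pr (Pool.Agent.H49.Ent.cond p x (x ω)) Bd from h') (not_lt.2 h)
        rw [if_pos (show ω ∈ {ω | x ω ∈ {ξ | Pr (Pool.Agent.H49.Ent.cond p x ξ) Bd ≤ 1 / 4}}
          from h), if_neg hn, add_zero]
      · have hn : ω ∉ {ω | x ω ∈ {ξ | Pr (Pool.Agent.H49.Ent.cond p x ξ) Bd ≤ 1 / 4}} :=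
          fun h' => h h'
        rw [if_neg hn, if_pos (show ω ∈ {ω | 1 / 4 <
          Pr (Pool.Agent.H49.Ent.cond p x (x ω)) Bd} from not_le.1 h), zero_add]
    linarith
  · intro ω hω hωS
    have hωS' : Pr (Pool.Agent.H49.Ent.cond p x (x ω)) Bd ≤ 1 / 4 := hωS
    set G' := Gc L u pos G (x ω) with hG'
    set a := cc L u pos (x ω) with ha
    set Y₀ : Fin n → ℝ := fun i => rp (2 ^ L) pos (x ω) (some i) with hY₀
    have hC₂ : C₁' ≤ C₁ := by linarith
    have hD := hG.d2 ω hω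
    have hC10 : 0 < C₁ := by linarith
    have hY₀a : ∀ i, |Y₀ i - a i| ≤ 1 / 2 ^ u := fun i => SLP.in_cell huL pos (x ω) i
    have hr : (0 : ℝ) ≤ 1 / 2 ^ u := by positivity
    -- the slope at the point
    have hg : ∀ i, |MvPolynomial.eval Y₀ (MvPolynomial.pderiv i G')| ≤ M₀ := by
      obtain ⟨j, -, hj⟩ := Finset.exists_max_image (Finset.univ : Finset (Fin n))
        (fun i => |MvPolynomial.eval Y₀ (MvPolynomial.pderiv i G')|) ⟨i₀, Finset.mem_univ _⟩
      set m := |MvPolynomial.eval Y₀ (MvPolynomial.pderiv j G')| with hm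
      have hjm : ∀ i, |MvPolynomial.eval Y₀ (MvPolynomial.pderiv i G')| ≤ m :=
        fun i => hj i (Finset.mem_univ _)
      by_cases hm1 : m ≤ 1
      · intro i
        have := hjm i
        linarith
      push Not at hm1
      have hm0 : 0 < m := by linarith
      set U : Fin n → ℝ := fun i => MvPolynomial.eval Y₀ (MvPolynomial.pderiv i G') / m with hU
      have hU1 : ∃ i, 1 ≤ |U i| := by
        refine ⟨j, ?_⟩
        rw [hU]
        simp only
        rw [abs_div, abs_of_pos hm0, ← hm, div_self hm0.ne']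
      have hncf := hS.ncf ω hω U hU1
      -- a thick line
      obtain ⟨ω', hω', hx, hthick, hdir⟩ : ∃ ω', 0 < p ω' ∧ x ω' = x ω ∧ ω' ∉ Bd ∧
          δ < |∑ i, U i * B (lam ω') (some i)| := by
        by_contra hcon
        push Not at hcon
        have hlaw : 0 < law p x (x ω) := law_pos hp0 x hω
        have h1 : law p x (x ω) ≤ ∑ ω', (if x ω' = x ω ∧ ω' ∈ Bd then p ω' else 0) +
            ∑ ω', (if x ω' = x ω ∧ |∑ i, U i * B (lam ω') (some i)| ≤ δ then p ω' else 0) := by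
          unfold law
          rw [← Finset.sum_add_distrib]
          refine Finset.sum_le_sum fun ω' _ => ?_
          by_cases h2 : x ω' = x ω
          · rcases (hp0 ω').eq_or_lt with h3 | h3
            · rw [← h3]
              simp
            · by_cases h4 : ω' ∈ Bd
              · rw [if_pos h2, if_pos ⟨h2, h4⟩]
                have : (0 : ℝ) ≤ if x ω' = x ω ∧ |∑ i, U i * B (lam ω') (some i)| ≤ δ
                    then p ω' else 0 := by
                  split_ifs
                  exacts [hp0 ω', le_rfl]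
                linarith
              · rw [if_pos h2, if_neg (fun h => h4 h.2), if_pos ⟨h2, hcon ω' h3 h2 h4⟩,
                  zero_add]
          · rw [if_neg h2, if_neg (fun h => h2 h.1), if_neg (fun h => h2 h.1), add_zero]
        have h2 : ∑ ω', (if x ω' = x ω ∧ ω' ∈ Bd then p ω' else 0) =
            Pr (Pool.Agent.H49.Ent.cond p x (x ω)) Bd * law p x (x ω) := by
          rw [CDF.Pr_eq, Finset.sum_mul]
          refine Finset.sum_congr rfl fun ω' _ => ?_
          unfold Pool.Agent.H49.Ent.cond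
          by_cases h3 : x ω' = x ω
          · by_cases h4 : ω' ∈ Bd
            · rw [if_pos ⟨h3, h4⟩, if_pos h4, if_pos h3, div_mul_cancel₀ _ hlaw.ne']
            · rw [if_neg (fun h => h4 h.2), if_neg h4, zero_mul]
          · rw [if_neg (fun h => h3 h.1)]
            split_ifs
            · rw [zero_mul]
            · rw [zero_mul]
        rw [h2] at h1
        have h3 : Pr (Pool.Agent.H49.Ent.cond p x (x ω)) Bd * law p x (x ω) ≤
            1 / 4 * law p x (x ω) := mul_le_mul_of_nonneg_right hωS' hlaw.le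
        have h4 : ε * law p x (x ω) ≤ 1 / 8 * law p x (x ω) :=
          mul_le_mul_of_nonneg_right hε hlaw.le
        linarith
      obtain ⟨E, hE, hE2⟩ := SLP.times hp0 huL hS.time hω' hthick
      have hcel : cel (2 ^ (L - u)) pos (x ω') = cel (2 ^ (L - u)) pos (x ω) := by rw [hx]
      have hcast : ((2 ^ L : ℕ) : ℝ) = 2 ^ L := by push_cast; rfl
      have hfin := hcore C₁ hC₂ G' a (A (lam ω')) (B (lam ω')) L L' u s e₁ E (T (x ω)) Y₀ m
        (hG.deg _) hD hL' hu hs hS.e₁_nonneg hlog (fun i => hS.leaf.B_le ω' i) hE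
        (fun t ht => by
          obtain ⟨ω₂, h2p, h2l, h2t, h2w, h2c⟩ := hE2 t ht
          have hc2 : cel (2 ^ (L - u)) pos (x ω₂) = cel (2 ^ (L - u)) pos (x ω) :=
            h2c.trans hcel
          refine ⟨?_, fun i => rp (2 ^ L) pos (x ω₂) (some i), rp (2 ^ L) pos (x ω₂) none,
            ?_, ?_, ?_, ?_⟩
          · rw [← h2t, h2w, hx]
          · intro i
            have h3 := SLP.in_cell huL pos (x ω₂) i
            have h4 : cc L u pos (x ω₂) = a := by
              rw [ha]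
              unfold cc
              rw [hc2]
            rwa [h4] at h3
          · intro i
            have h3 := hS.leaf.near ω₂ (some i)
            rw [hcast, h2l, h2t] at h3
            have h4 : rp (2 ^ L) pos (x ω₂) (some i) = (pos (x ω₂) (some i) : ℝ) / 2 ^ L := by
              unfold rp
              rw [hcast]
            rw [← h4] at h3
            exact h3
          · have h3 := hS.leaf.near ω₂ none
            rw [hcast, h2l, h2t] at h3
            have h4 : rp (2 ^ L) pos (x ω₂) none = (pos (x ω₂) none : ℝ) / 2 ^ L := by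
              unfold rp
              rw [hcast]
            rw [h4]
            exact h3
          · have h3 := hG.near ω₂ h2p
            have h4 : Gc L u pos G (x ω₂) = G' := by
              rw [hG']
              unfold Gc
              rw [hc2]
            rwa [h4] at h3) hY₀a
        (fun i => by
          have h3 := hS.leaf.near ω' (some i)
          rw [hcast, hx] at h3
          have h4 : Y₀ i = (pos (x ω) (some i) : ℝ) / 2 ^ L := by
            rw [hY₀]
            unfold rp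
            simp only
            rw [hcast]
          rw [h4]
          exact h3) hm1.le hjm
      have h5 : |∑ i, U i * B (lam ω') (some i)| * m =
          |∑ i, MvPolynomial.eval Y₀ (MvPolynomial.pderiv i G') * B (lam ω') (some i)| := by
        have h6 : m = |m| := (abs_of_pos hm0).symm
        conv_lhs => rw [h6]
        rw [← abs_mul, Finset.sum_mul]
        congr 1
        refine Finset.sum_congr rfl fun i _ => ?_
        rw [hU]
        simp only
        field_simp
      have h6 : δ * m ≤ C₀ + 1 + δ / 4 * m := by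
        refine le_trans ?_ hfin
        rw [← h5]
        exact mul_le_mul_of_nonneg_right hdir.le hm0.le
      have h7 : m ≤ 2 * (C₀ + 1) / δ := by
        rw [le_div_iff₀ hδ]
        nlinarith
      intro i
      have := hjm i
      linarith
    refine ⟨hG.deg _, ?_⟩
    intro y hy i
    have hya : ∀ i, |y i - a i| ≤ 2 * (1 / 2 ^ u) := by
      intro i
      have h1 := hy i
      rw [abs_le]
      constructor <;> linarith [h1.1, h1.2]
    have hY₀2 : ∀ i, |Y₀ i - a i| ≤ 2 * (1 / 2 ^ u) := fun i => (hY₀a i).trans (by linarith)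
    have h1 := SLP.slope_two G' a (1 / 2 ^ u) (2 ^ s) (by positivity) hD y Y₀ hya hY₀2 i
    have h2 : (n : ℝ) * 2 ^ s * (4 * (1 / 2 ^ u)) ≤ 1 := by
      have h3 : (n : ℝ) * 2 ^ s * (4 * (1 / 2 ^ u)) = 4 * n * 2 ^ s / 2 ^ u := by ring
      rw [h3, div_le_one (by positivity)]
      have h4 : 4 * (n : ℝ) * 2 ^ s ≤ C₁ * 2 ^ s :=
        mul_le_mul_of_nonneg_right (by linarith) (by positivity)
      linarith
    have h3 := abs_sub_abs_le_abs_sub (MvPolynomial.eval y (MvPolynomial.pderiv i G'))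
      (MvPolynomial.eval Y₀ (MvPolynomial.pderiv i G'))
    have h4 := hg i
    linarith

end Pool.KBX
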