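import Pool.Agent.H37.KBX.Stmts
import Pool.Agent.H37.S3.PRE
import Pool.Agent.H33.KAL.RMG
import Pool.Agent.H87.KBX.Sup

/-!
# Row SLP of the board kbx: the analytic part

One line of the fan: the polynomial of the line is small at many times of the window, so its
derivative is small, and the slope in the direction of the line is bounded.
-/

set_option autoImplicit false

namespace Pool.KBX

open Finset Real MeasureTheory
open Pool.Agent.H49.Ent Pool.Agent.H32.Dense Pool.STK Pool.KAF Pool.KAL Pool.KS3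

namespace SLP

/-- Evaluation on a line. -/
lemma eval_ln {n : ℕ} (a b : Fin n → ℝ) (P : MvPolynomial (Fin n) ℝ) (t : ℝ) :
    (MvPolynomial.aeval (fun i => Polynomial.C (a i) + Polynomial.X * Polynomial.C (b i)) P :
      Polynomial ℝ).eval t = MvPolynomial.eval (fun i => a i + t * b i) P := by
  induction P using MvPolynomial.induction_on with
  | C c => simp
  | add p q hp hq => simp only [map_add, Polynomial.eval_add, hp, hq]
  | mul_X p k hp =>
    rw [map_mul, map_mul, Polynomial.eval_mul, hp, MvPolynomial.aeval_X, MvPolynomial.eval_X]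
    have h1 : (Polynomial.C (a k) + Polynomial.X * Polynomial.C (b k) : Polynomial ℝ).eval t =
        a k + t * b k := by
      rw [Polynomial.eval_add, Polynomial.eval_C, Polynomial.eval_mul, Polynomial.eval_X,
        Polynomial.eval_C]
    rw [h1]

/-- The degree on a line. -/
lemma natDegree_ln {n d : ℕ} (a b : Fin n → ℝ) (P : MvPolynomial (Fin n) ℝ)
    (hP : P.totalDegree ≤ d) :
    (MvPolynomial.aeval (fun i => Polynomial.C (a i) + Polynomial.X * Polynomial.C (b i)) P :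
      Polynomial ℝ).natDegree ≤ d := by
  have h := MvPolynomial.aeval_natDegree_le P hP
    (fun i => (Polynomial.C (a i) + Polynomial.X * Polynomial.C (b i) : Polynomial ℝ)) (n := 1)
    (fun i => by
      refine (Polynomial.natDegree_add_le _ _).trans ?_
      refine max_le (by simp) ?_
      refine (Polynomial.natDegree_mul_C_le _ _).trans ?_
      exact Polynomial.natDegree_X_le)
  simpa using h

/-- The first coefficient on a line. -/
lemma coeff_one_ln {n : ℕ} (a b : Fin n → ℝ) (P : MvPolynomial (Fin n) ℝ) :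
    (MvPolynomial.aeval (fun i => Polynomial.C (a i) + Polynomial.X * Polynomial.C (b i)) P :
      Polynomial ℝ).coeff 1 = ∑ i, b i * MvPolynomial.eval a (MvPolynomial.pderiv i P) := by
  have h1 : (MvPolynomial.aeval (fun i => Polynomial.C (a i) + Polynomial.X * Polynomial.C (b i))
      P : Polynomial ℝ).coeff 1 = (Polynomial.derivative (MvPolynomial.aeval
        (fun i => Polynomial.C (a i) + Polynomial.X * Polynomial.C (b i)) P :
          Polynomial ℝ)).eval 0 := by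
    rw [← Polynomial.coeff_zero_eq_eval_zero, Polynomial.coeff_derivative]
    simp
  rw [h1, der_line, Polynomial.eval_finsetSum]
  refine Finset.sum_congr rfl fun i _ => ?_
  rw [Polynomial.eval_mul, eval_ln]
  have h2 : (Polynomial.derivative (Polynomial.C (a i) + Polynomial.X * Polynomial.C (b i) :
      Polynomial ℝ)).eval 0 = b i := by
    rw [Polynomial.derivative_add, Polynomial.derivative_C, zero_add, Polynomial.derivative_mul,
      Polynomial.derivative_X, Polynomial.derivative_C, mul_zero, add_zero, one_mul,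
      Polynomial.eval_C]
  have h3 : (fun i => a i + 0 * b i) = a := by
    funext j
    ring
  rw [h2, h3, mul_comm]

/-- Two points of a neighbourhood of the cube. -/
lemma lip_two {n : ℕ} (G : MvPolynomial (Fin n) ℝ) (a : Fin n → ℝ) (r S h : ℝ) (hS : 0 ≤ S)
    (hh : 0 ≤ h) (hhr : h ≤ r)
    (hG : ∀ y : Fin n → ℝ, (∀ i, |y i - a i| ≤ 2 * r) → ∀ i,
      |MvPolynomial.eval y (MvPolynomial.pderiv i G)| ≤ S)
    (y z : Fin n → ℝ) (hy : ∀ i, |y i - a i| ≤ r) (hyz : ∀ i, |y i - z i| ≤ h) :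
    |MvPolynomial.eval y G - MvPolynomial.eval z G| ≤ n * S * h := by
  have key := mean_value G (fun i => min (y i) (z i)) h S hS (fun v hv i => by
    refine hG v (fun j => ?_) i
    have h1 : min (y j) (z j) ≤ v j ∧ v j ≤ min (y j) (z j) + h := hv j
    have h2 := hyz j
    have h3 := hy j
    have h4 := min_le_left (y j) (z j)
    have h5 := min_le_right (y j) (z j)
    rw [abs_le] at h2 h3 ⊢
    rcases min_choice (y j) (z j) with hm | hm
    · rw [hm] at h1
      constructor <;> linarith [h1.1, h1.2, h2.1, h2.2, h3.1, h3.2]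
    · rw [hm] at h1 h4
      constructor <;> linarith [h1.1, h1.2, h2.1, h2.2, h3.1, h3.2]) z y
    (fun j => by
      have h2 := abs_le.1 (hyz j)
      refine ⟨min_le_right _ _, ?_⟩
      show z j ≤ min (y j) (z j) + h
      rcases min_choice (y j) (z j) with hm | hm
      · rw [hm]; linarith [h2.1]
      · rw [hm]; linarith)
    (fun j => by
      have h2 := abs_le.1 (hyz j)
      refine ⟨min_le_left _ _, ?_⟩
      show y j ≤ min (y j) (z j) + h
      rcases min_choice (y j) (z j) with hm | hm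
      · rw [hm]; linarith
      · rw [hm]; linarith [h2.2])
  exact key

/-- Slopes at two points, from the second derivatives. -/
lemma slope_two {n : ℕ} (G : MvPolynomial (Fin n) ℝ) (a : Fin n → ℝ) (r S : ℝ) (hS : 0 ≤ S)
    (hD : D2 G a r S) (y z : Fin n → ℝ) (hy : ∀ i, |y i - a i| ≤ 2 * r)
    (hz : ∀ i, |z i - a i| ≤ 2 * r) (i : Fin n) :
    |MvPolynomial.eval y (MvPolynomial.pderiv i G) -
      MvPolynomial.eval z (MvPolynomial.pderiv i G)| ≤ n * S * (4 * r) := by
  have hmem : ∀ v : Fin n → ℝ, (∀ i, |v i - a i| ≤ 2 * r) ↔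
      v ∈ cube (fun i => a i - 2 * r) (4 * r) := by
    intro v
    constructor
    · intro h j
      have := abs_le.1 (h j)
      constructor <;> linarith [this.1, this.2]
    · intro h j
      rw [abs_le]
      have := h j
      simp only at this
      constructor <;> linarith [this.1, this.2]
  exact mean_value (MvPolynomial.pderiv i G) (fun i => a i - 2 * r) (4 * r) S hS
    (fun v hv j => hD v ((hmem v).2 hv) j i) z y ((hmem z).1 hz) ((hmem y).1 hy)

/-- Remez inequality for many times of a window: the first coefficient. -/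
lemma der_bound (k : ℕ) (hk : 1 ≤ k) : ∃ C : ℝ, 1 ≤ C ∧ ∀ (P : Polynomial ℝ) (E : Finset ℤ)
    (N η ρ : ℝ), P.natDegree ≤ k → 0 < N → 0 < ρ → 4 * k ≤ ρ * N → ρ * N ≤ E.card →
    (∀ e ∈ E, |(e : ℝ)| ≤ N) → (∀ e ∈ E, |P.eval (e : ℝ)| ≤ η) →
    |P.coeff 1| * N ≤ C * (1 / ρ) ^ k * η := by
  obtain ⟨C₂, hC₂, hnode⟩ := coeff_node k
  have hk' : (1 : ℝ) ≤ k := by exact_mod_cast hk
  have hC : (1 : ℝ) ≤ C₂ * ((k + 1) * (4 * k) ^ k) := by
    have h1 : (1 : ℝ) ≤ (4 * k) ^ k := one_le_pow₀ (by linarith)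
    have h2 : (1 : ℝ) ≤ (k + 1) * (4 * k) ^ k := by nlinarith
    nlinarith
  refine ⟨C₂ * ((k + 1) * (4 * k) ^ k), hC, ?_⟩
  intro P E N η ρ hP hN hρ hkN hE hEN hEη
  have hcard1 : 1 ≤ E.card := by
    have : (0 : ℝ) < E.card := by
      have : 0 < ρ * N := by positivity
      linarith
    exact_mod_cast this
  set s : ℕ := (E.card - 1) / k with hs
  have hs1 : s * k + 1 ≤ E.card := by
    have : s * k ≤ E.card - 1 := Nat.div_mul_le_self (E.card - 1) k
    omega
  have hs2 : ρ * N / (2 * k) ≤ s := by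
    have h1 := Nat.lt_div_mul_add (a := E.card - 1) (b := k) (by omega)
    have h2 : E.card - 1 < s * k + k := h1
    have h3 : E.card ≤ s * k + k := by omega
    have h4 : (E.card : ℝ) ≤ s * k + k := by exact_mod_cast h3
    rw [div_le_iff₀ (by positivity)]
    nlinarith
  have hs0 : (0 : ℝ) < s := lt_of_lt_of_le (by positivity) hs2
  have hs3 : 1 ≤ s := by exact_mod_cast hs0
  have hη : 0 ≤ η := by
    obtain ⟨e, he⟩ := Finset.card_pos.1 hcard1
    exact (abs_nonneg _).trans (hEη e he)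
  have hval : ∀ σ ∈ Set.Icc (0 : ℝ) 1, |P.eval (N * σ)| ≤ (k + 1) * (4 * k) ^ k * (1 / ρ) ^ k * η := by
    intro σ hσ
    have h1 := rmg_thm k s P E (N * σ) (2 * N) η hP hs3 hs1 (fun e he => by
      refine (abs_sub _ _).trans ?_
      have h2 := hEN e he
      have h3 : |N * σ| ≤ N := by
        rw [abs_mul, abs_of_pos hN, abs_of_nonneg hσ.1]
        nlinarith [hσ.2]
      linarith) hEη
    refine h1.trans ?_
    have h4 : 2 * N / s ≤ 4 * k * (1 / ρ) := by
      rw [div_le_iff₀ hs0]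
      have h5 : 4 * k * (1 / ρ) * (ρ * N / (2 * k)) = 2 * N := by
        field_simp
        ring
      calc 2 * N = 4 * k * (1 / ρ) * (ρ * N / (2 * k)) := h5.symm
        _ ≤ 4 * k * (1 / ρ) * s := mul_le_mul_of_nonneg_left hs2 (by positivity)
    have h6 : (2 * N / s) ^ k ≤ (4 * k) ^ k * (1 / ρ) ^ k := by
      rw [← mul_pow]
      exact pow_le_pow_left₀ (by positivity) h4 k
    have h7 : (0 : ℝ) ≤ k + 1 := by positivity
    calc ((k : ℝ) + 1) * (2 * N / s) ^ k * η ≤ (k + 1) * ((4 * k) ^ k * (1 / ρ) ^ k) * η := by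
          exact mul_le_mul_of_nonneg_right (mul_le_mul_of_nonneg_left h6 h7) hη
      _ = (k + 1) * (4 * k) ^ k * (1 / ρ) ^ k * η := by ring
  rcases (abs_nonneg (P.coeff 1)).eq_or_lt with h0 | h0
  · rw [← h0, zero_mul]
    positivity
  set R : Polynomial ℝ := P.comp (Polynomial.C N * Polynomial.X) with hR
  have hRc : R.coeff 1 = P.coeff 1 * N := by
    rw [hR, Polynomial.comp_C_mul_X_coeff, pow_one]
  have hRd : R.natDegree ≤ k := by
    rw [hR]
    refine Polynomial.natDegree_comp_le.trans ?_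
    refine le_trans (Nat.mul_le_mul hP ((Polynomial.natDegree_C_mul_le N _).trans
      Polynomial.natDegree_X_le)) ?_
    omega
  have hpos : 0 < |R.coeff 1| := by
    rw [hRc, abs_mul, abs_of_pos hN]
    positivity
  obtain ⟨σ, hσ, hσ2⟩ := hnode R hRd 1 hpos
  have h1 : R.eval σ = P.eval (N * σ) := by
    rw [hR, Polynomial.eval_comp, Polynomial.eval_mul, Polynomial.eval_C, Polynomial.eval_X]
  rw [h1] at hσ2
  have h2 := hσ2.trans (hval σ hσ)
  rw [div_le_iff₀ (by linarith), hRc, abs_mul, abs_of_pos hN] at h2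
  linarith

set_option maxHeartbeats 1000000 in
/-- The slope in the direction of one line. -/
lemma core (n d : ℕ) (C₀ δ θ : ℝ) (hC₀ : 1 ≤ C₀) (hδ : 0 < δ) (hθ : 0 < θ) :
    ∃ C₁ : ℝ, 1 ≤ C₁ ∧ ∀ C₂ : ℝ, C₁ ≤ C₂ → ∀ (G : MvPolynomial (Fin n) ℝ) (a : Fin n → ℝ)
      (A B : Option (Fin n) → ℝ) (L L' u s : ℕ) (e₁ : ℝ) (E : Finset ℕ) (t₀ : ℕ)
      (Y₀ : Fin n → ℝ) (m : ℝ),
      G.totalDegree ≤ d → D2 G a (1 / 2 ^ u) (2 ^ s) → L' ≤ L → u ≤ L' →
      C₂ * 2 ^ s ≤ 2 ^ u → 0 ≤ e₁ → C₂ * (e₁ + 1) + u * Real.log 2 ≤ L' * Real.log 2 →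
      (∀ i, |B i| ≤ C₀) → θ * Real.exp (-e₁) * 2 ^ (L - u) ≤ E.card →
      (∀ t ∈ E, t / 2 ^ (L - u) = t₀ / 2 ^ (L - u) ∧ ∃ (Y : Fin n → ℝ) (N : ℝ),
        (∀ i, |Y i - a i| ≤ 1 / 2 ^ u) ∧
        (∀ i, |Y i - (A (some i) + (t : ℝ) / 2 ^ L * B (some i))| ≤ C₀ / 2 ^ L) ∧
        |N - (A none + (t : ℝ) / 2 ^ L * B none)| ≤ C₀ / 2 ^ L ∧
        |N - MvPolynomial.eval Y G| ≤ C₀ / 2 ^ L') →
      (∀ i, |Y₀ i - a i| ≤ 1 / 2 ^ u) →
      (∀ i, |Y₀ i - (A (some i) + (t₀ : ℝ) / 2 ^ L * B (some i))| ≤ C₀ / 2 ^ L) →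
      1 ≤ m → (∀ i, |MvPolynomial.eval Y₀ (MvPolynomial.pderiv i G)| ≤ m) →
      |∑ i, MvPolynomial.eval Y₀ (MvPolynomial.pderiv i G) * B (some i)| ≤
        C₀ + 1 + δ / 4 * m := by
  classical
  obtain ⟨Cd, hCd, hder⟩ := der_bound (d + 1) (by omega)
  set k : ℕ := d + 1 with hk
  have hk1 : (1 : ℝ) ≤ k := by rw [hk]; push_cast; linarith [Nat.cast_nonneg (α := ℝ) d]
  set K₀ : ℝ := Cd * (1 / θ) ^ k * ((2 + 2 * n) * C₀) with hK₀
  have hK₀0 : 0 < K₀ := by positivity
  have hn0 : (0 : ℝ) ≤ n := Nat.cast_nonneg n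
  obtain ⟨C₁, hC₁⟩ : ∃ C₁ : ℝ, C₁ = 1 + C₀ + 4 * k / θ + 4 * n + k + 4 * K₀ / δ +
    4 * n * n * C₀ := ⟨_, rfl⟩
  have p1 : 0 ≤ 4 * k / θ := by positivity
  have p2 : 0 ≤ 4 * K₀ / δ := by positivity
  have p3 : 0 ≤ 4 * n * n * C₀ := by positivity
  refine ⟨C₁, by linarith, ?_⟩
  intro C₂ hC₂ G a A B L L' u s e₁ E t₀ Y₀ m hG hD hL' hu hs he₁ hlog hB hE hline hY₀a hY₀l hm hg
  have hC₂1 : 1 ≤ C₂ := by linarith
  have hC₂0 : 0 < C₂ := by linarith
  -- powers of two
  have hlog2 : Real.exp (C₂ * (e₁ + 1)) * 2 ^ u ≤ 2 ^ L' := by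
    have h1 : Real.exp (C₂ * (e₁ + 1) + u * Real.log 2) ≤ Real.exp (L' * Real.log 2) :=
      Real.exp_le_exp.2 hlog
    have h2 : ∀ v : ℕ, Real.exp (v * Real.log 2) = 2 ^ v := by
      intro v
      rw [← Real.rpow_natCast, Real.rpow_def_of_pos (by norm_num), mul_comm]
    rw [Real.exp_add, h2, h2] at h1
    exact h1
  have hL2 : (2 : ℝ) ^ L' ≤ 2 ^ L := pow_le_pow_right₀ (by norm_num) hL'
  have hLu : (2 : ℝ) ^ (L - u) * 2 ^ u = 2 ^ L := by
    rw [← pow_add]
    congr 1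
    omega
  have hN : Real.exp (C₂ * (e₁ + 1)) ≤ 2 ^ (L - u) := by
    have h1 : Real.exp (C₂ * (e₁ + 1)) * 2 ^ u ≤ 2 ^ (L - u) * 2 ^ u := by
      rw [hLu]; exact hlog2.trans hL2
    exact le_of_mul_le_mul_right h1 (by positivity)
  have hNC : C₂ ≤ 2 ^ (L - u) := by
    have h1 := Real.add_one_le_exp (C₂ * (e₁ + 1))
    nlinarith
  have hh : C₀ / 2 ^ L ≤ 1 / 2 ^ u := by
    rw [div_le_div_iff₀ (by positivity) (by positivity), one_mul, ← hLu]
    exact mul_le_mul_of_nonneg_right (by linarith) (by positivity)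
  have hr : (0 : ℝ) ≤ 1 / 2 ^ u := by positivity
  have hsu : (2 : ℝ) ^ s * (1 / 2 ^ u) ≤ 1 / C₂ := by
    rw [mul_one_div, div_le_div_iff₀ (by positivity) hC₂0, one_mul, mul_comm]
    exact hs
  -- slopes in the neighbourhood
  have hY₀2 : ∀ i, |Y₀ i - a i| ≤ 2 * (1 / 2 ^ u) := fun i => (hY₀a i).trans (by linarith)
  have hsl : ∀ z : Fin n → ℝ, (∀ i, |z i - a i| ≤ 2 * (1 / 2 ^ u)) → ∀ i,
      |MvPolynomial.eval z (MvPolynomial.pderiv i G) -
        MvPolynomial.eval Y₀ (MvPolynomial.pderiv i G)| ≤ 4 * n / C₂ := by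
    intro z hz i
    refine (slope_two G a (1 / 2 ^ u) (2 ^ s) (by positivity) hD z Y₀ hz hY₀2 i).trans ?_
    have h1 : (n : ℝ) * 2 ^ s * (4 * (1 / 2 ^ u)) = 4 * n * (2 ^ s * (1 / 2 ^ u)) := by ring
    rw [h1]
    refine (mul_le_mul_of_nonneg_left hsu (by positivity)).trans (le_of_eq ?_)
    ring
  have h4n : 4 * n / C₂ ≤ 1 := by
    rw [div_le_one hC₂0]
    linarith
  have hslb : ∀ z : Fin n → ℝ, (∀ i, |z i - a i| ≤ 2 * (1 / 2 ^ u)) → ∀ i,
      |MvPolynomial.eval z (MvPolynomial.pderiv i G)| ≤ m + 1 := by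
    intro z hz i
    have h1 := hsl z hz i
    have h2 := abs_sub_abs_le_abs_sub (MvPolynomial.eval z (MvPolynomial.pderiv i G))
      (MvPolynomial.eval Y₀ (MvPolynomial.pderiv i G))
    have h3 := hg i
    linarith
  have hreg : ∀ (Y z : Fin n → ℝ), (∀ i, |Y i - a i| ≤ 1 / 2 ^ u) →
      (∀ i, |Y i - z i| ≤ C₀ / 2 ^ L) → ∀ i, |z i - a i| ≤ 2 * (1 / 2 ^ u) := by
    intro Y z h1 h2 i
    have h3 := abs_le.1 (h1 i)
    have h4 := abs_le.1 (h2 i)
    rw [abs_le]
    constructor <;> linarith [h3.1, h3.2, h4.1, h4.2]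
  -- the polynomial of the line
  set τ₀ : ℝ := (t₀ : ℝ) / 2 ^ L with hτ₀
  set z₀ : Fin n → ℝ := fun i => A (some i) + τ₀ * B (some i) with hz₀
  set P : Polynomial ℝ := Polynomial.C (A none + τ₀ * B none) + Polynomial.X *
    Polynomial.C (B none / 2 ^ L) - MvPolynomial.aeval (fun i => Polynomial.C (z₀ i) +
      Polynomial.X * Polynomial.C (B (some i) / 2 ^ L)) G with hP
  have hPd : P.natDegree ≤ k := by
    rw [hP]
    refine (Polynomial.natDegree_sub_le _ _).trans (max_le ?_ ?_)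
    · refine (Polynomial.natDegree_add_le _ _).trans (max_le ?_ ?_)
      · exact (Polynomial.natDegree_C _).le.trans (Nat.zero_le _)
      · refine (Polynomial.natDegree_mul_C_le _ _).trans (Polynomial.natDegree_X_le.trans ?_)
        omega
    · exact (natDegree_ln _ _ G hG).trans (by omega)
  have hPe : ∀ y : ℝ, P.eval y = (A none + (τ₀ + y / 2 ^ L) * B none) -
      MvPolynomial.eval (fun i => A (some i) + (τ₀ + y / 2 ^ L) * B (some i)) G := by
    intro y
    rw [hP, Polynomial.eval_sub, eval_ln, Polynomial.eval_add, Polynomial.eval_C,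
      Polynomial.eval_mul, Polynomial.eval_X, Polynomial.eval_C]
    have h1 : (fun i => z₀ i + y * (B (some i) / 2 ^ L)) =
        fun i => A (some i) + (τ₀ + y / 2 ^ L) * B (some i) := by
      funext i
      rw [hz₀]
      ring
    rw [h1]
    ring
  have hPc : P.coeff 1 = (B none - ∑ i, B (some i) *
      MvPolynomial.eval z₀ (MvPolynomial.pderiv i G)) / 2 ^ L := by
    rw [hP, Polynomial.coeff_sub, coeff_one_ln, Polynomial.coeff_add, Polynomial.coeff_C,
      if_neg one_ne_zero, zero_add, Polynomial.coeff_X_mul, Polynomial.coeff_C_zero, sub_div,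
      Finset.sum_div]
    congr 1
    refine Finset.sum_congr rfl fun i _ => ?_
    ring
  set N : ℝ := 2 ^ (L - u) with hNdef
  have hN0 : 0 < N := by positivity
  set ρ : ℝ := θ * Real.exp (-e₁) with hρ
  have hρ0 : 0 < ρ := by positivity
  set η : ℝ := (2 + 2 * n) * C₀ * m / 2 ^ L' with hη
  set E' : Finset ℤ := E.image (fun t : ℕ => (t : ℤ) - t₀) with hE'
  have hcard : E'.card = E.card := by
    rw [hE']
    refine Finset.card_image_of_injective _ fun x y h => ?_
    simpa using h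
  have hkN : 4 * (k : ℝ) ≤ ρ * N := by
    have h1 : ρ * Real.exp (C₂ * (e₁ + 1)) ≤ ρ * N := mul_le_mul_of_nonneg_left hN hρ0.le
    have h2 : ρ * Real.exp (C₂ * (e₁ + 1)) = θ * Real.exp (C₂ * (e₁ + 1) - e₁) := by
      rw [hρ, mul_assoc, ← Real.exp_add]
      congr 2
      ring
    have h3 : C₂ ≤ Real.exp (C₂ * (e₁ + 1) - e₁) := by
      have h4 := Real.add_one_le_exp (C₂ * (e₁ + 1) - e₁)
      nlinarith
    have h5 : 4 * k / θ ≤ C₂ := by linarith
    have h6 : 4 * (k : ℝ) ≤ θ * C₂ := by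
      rw [div_le_iff₀ hθ] at h5
      linarith
    have h7 : θ * C₂ ≤ θ * Real.exp (C₂ * (e₁ + 1) - e₁) := mul_le_mul_of_nonneg_left h3 hθ.le
    linarith
  have hEN : ∀ e ∈ E', |(e : ℝ)| ≤ N := by
    intro e he
    obtain ⟨t, ht, rfl⟩ := Finset.mem_image.1 he
    have hw := (hline t ht).1
    have hpos : 0 < 2 ^ (L - u) := by positivity
    have d1 := Nat.div_add_mod t (2 ^ (L - u))
    have d2 := Nat.div_add_mod t₀ (2 ^ (L - u))
    have d3 := Nat.mod_lt t hpos
    have d4 := Nat.mod_lt t₀ hpos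
    rw [hw] at d1
    have h1 : (t : ℤ) - t₀ ≤ ((2 ^ (L - u) : ℕ) : ℤ) ∧
        -((2 ^ (L - u) : ℕ) : ℤ) ≤ (t : ℤ) - t₀ := by
      constructor <;> omega
    rw [abs_le, hNdef]
    constructor
    · have := h1.2
      exact_mod_cast this
    · have := h1.1
      exact_mod_cast this
  have hEη : ∀ e ∈ E', |P.eval (e : ℝ)| ≤ η := by
    intro e he
    obtain ⟨t, ht, rfl⟩ := Finset.mem_image.1 he
    obtain ⟨_, Y, M, hY1, hY2, hM1, hM2⟩ := hline t ht
    rw [hPe]
    have h1 : τ₀ + ((((t : ℤ) - t₀ : ℤ)) : ℝ) / 2 ^ L = (t : ℝ) / 2 ^ L := by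
      rw [hτ₀]
      push_cast
      ring
    rw [h1]
    set z : Fin n → ℝ := fun i => A (some i) + (t : ℝ) / 2 ^ L * B (some i) with hz
    have h2 := lip_two G a (1 / 2 ^ u) (m + 1) (C₀ / 2 ^ L) (by linarith) (by positivity) hh
      hslb Y z hY1 hY2
    have h3 : |(A none + (t : ℝ) / 2 ^ L * B none) - MvPolynomial.eval z G| ≤
        C₀ / 2 ^ L + C₀ / 2 ^ L' + n * (m + 1) * (C₀ / 2 ^ L) := by
      have e : (A none + (t : ℝ) / 2 ^ L * B none) - MvPolynomial.eval z G =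
          -(M - (A none + (t : ℝ) / 2 ^ L * B none)) + (M - MvPolynomial.eval Y G) +
            (MvPolynomial.eval Y G - MvPolynomial.eval z G) := by ring
      rw [e]
      refine (abs_add_le _ _).trans (add_le_add ((abs_add_le _ _).trans (add_le_add ?_ hM2)) h2)
      rw [abs_neg]
      exact hM1
    refine h3.trans ?_
    have h4 : C₀ / 2 ^ L ≤ C₀ / 2 ^ L' :=
      div_le_div_of_nonneg_left (by linarith) (by positivity) hL2
    have h5 : C₀ / 2 ^ L + C₀ / 2 ^ L' + n * (m + 1) * (C₀ / 2 ^ L) ≤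
        (2 + n * (m + 1)) * (C₀ / 2 ^ L') := by
      have : (n : ℝ) * (m + 1) * (C₀ / 2 ^ L) ≤ n * (m + 1) * (C₀ / 2 ^ L') :=
        mul_le_mul_of_nonneg_left h4 (by positivity)
      linarith
    refine h5.trans ?_
    rw [hη]
    have h6 : (2 + 2 * (n : ℝ)) * C₀ * m / 2 ^ L' = (2 + 2 * n) * m * (C₀ / 2 ^ L') := by ring
    rw [h6]
    refine mul_le_mul_of_nonneg_right ?_ (by positivity)
    nlinarith
  have hmain := hder P E' N η ρ hPd hN0 hρ0 (by exact_mod_cast hkN)
    (by rw [hcard]; exact hE) hEN hEη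
  -- the derivative of the polynomial of the line
  set W : ℝ := B none - ∑ i, B (some i) * MvPolynomial.eval z₀ (MvPolynomial.pderiv i G) with hW
  have hW1 : |W| ≤ δ / 4 * m := by
    have h1 : |P.coeff 1| * N = |W| / 2 ^ u := by
      rw [hPc, abs_div, abs_of_pos (by positivity : (0 : ℝ) < 2 ^ L), ← hLu]
      field_simp
    rw [h1] at hmain
    have h2 : |W| ≤ 2 ^ u * (Cd * (1 / ρ) ^ k * η) := by
      rw [div_le_iff₀ (by positivity)] at hmain
      linarith
    have h3 : (1 / ρ) ^ k = (1 / θ) ^ k * Real.exp (k * e₁) := by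
      have : 1 / ρ = 1 / θ * Real.exp e₁ := by
        rw [hρ, Real.exp_neg]
        field_simp
      rw [this, mul_pow, ← Real.exp_nat_mul]
    have h4 : (2 : ℝ) ^ u / 2 ^ L' ≤ Real.exp (-(C₂ * (e₁ + 1))) := by
      rw [div_le_iff₀ (by positivity)]
      have h5 := mul_le_mul_of_nonneg_left hlog2 (Real.exp_pos (-(C₂ * (e₁ + 1)))).le
      rw [← mul_assoc, ← Real.exp_add, neg_add_cancel, Real.exp_zero, one_mul] at h5
      exact h5
    have h5 : 2 ^ u * (Cd * (1 / ρ) ^ k * η) =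
        K₀ * m * (Real.exp (k * e₁) * (2 ^ u / 2 ^ L')) := by
      rw [h3, hη, hK₀]
      ring
    rw [h5] at h2
    have h6 : Real.exp (k * e₁) * (2 ^ u / 2 ^ L') ≤ Real.exp (-(C₂ - k)) := by
      refine (mul_le_mul_of_nonneg_left h4 (Real.exp_pos _).le).trans ?_
      rw [← Real.exp_add]
      refine Real.exp_le_exp.2 ?_
      have hkC : (k : ℝ) ≤ C₂ := by linarith
      nlinarith
    have h7 : K₀ * Real.exp (-(C₂ - k)) ≤ δ / 4 := by
      have h8 : 4 * K₀ / δ ≤ C₂ - k := by linarith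
      have h9 := Real.add_one_le_exp (C₂ - k)
      have h10 : 4 * K₀ / δ ≤ Real.exp (C₂ - k) := by linarith
      rw [Real.exp_neg, ← div_eq_mul_inv, div_le_iff₀ (Real.exp_pos _)]
      rw [div_le_iff₀ hδ] at h10
      linarith
    calc |W| ≤ K₀ * m * (Real.exp (k * e₁) * (2 ^ u / 2 ^ L')) := h2
      _ ≤ K₀ * m * Real.exp (-(C₂ - k)) := mul_le_mul_of_nonneg_left h6 (by positivity)
      _ = K₀ * Real.exp (-(C₂ - k)) * m := by ring
      _ ≤ δ / 4 * m := mul_le_mul_of_nonneg_right h7 (by linarith)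
  -- from the line to the point
  have hdiff : |∑ i, B (some i) * (MvPolynomial.eval z₀ (MvPolynomial.pderiv i G) -
      MvPolynomial.eval Y₀ (MvPolynomial.pderiv i G))| ≤ 1 := by
    refine (Finset.abs_sum_le_sum_abs _ _).trans ?_
    have h1 : ∀ i ∈ (Finset.univ : Finset (Fin n)), |B (some i) *
        (MvPolynomial.eval z₀ (MvPolynomial.pderiv i G) -
          MvPolynomial.eval Y₀ (MvPolynomial.pderiv i G))| ≤ C₀ * (4 * n / C₂) := by
      intro i _
      rw [abs_mul]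
      exact mul_le_mul (hB _) (hsl z₀ (hreg Y₀ z₀ hY₀a hY₀l) i) (abs_nonneg _) (by linarith)
    refine (Finset.sum_le_sum h1).trans ?_
    rw [Finset.sum_const, Finset.card_univ, Fintype.card_fin, nsmul_eq_mul]
    have h2 : (n : ℝ) * (C₀ * (4 * n / C₂)) = 4 * n * n * C₀ / C₂ := by ring
    rw [h2, div_le_one hC₂0]
    linarith
  have hfin : ∑ i, MvPolynomial.eval Y₀ (MvPolynomial.pderiv i G) * B (some i) =
      B none - W - ∑ i, B (some i) * (MvPolynomial.eval z₀ (MvPolynomial.pderiv i G) -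
        MvPolynomial.eval Y₀ (MvPolynomial.pderiv i G)) := by
    rw [hW]
    have h1 : ∑ i, B (some i) * (MvPolynomial.eval z₀ (MvPolynomial.pderiv i G) -
        MvPolynomial.eval Y₀ (MvPolynomial.pderiv i G)) =
        ∑ i, B (some i) * MvPolynomial.eval z₀ (MvPolynomial.pderiv i G) -
          ∑ i, MvPolynomial.eval Y₀ (MvPolynomial.pderiv i G) * B (some i) := by
      rw [← Finset.sum_sub_distrib]
      refine Finset.sum_congr rfl fun i _ => ?_
      ring
    rw [h1]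
    ring
  rw [hfin]
  have h1 := hB none
  have h2 := abs_le.1 h1
  have h3 := abs_le.1 hW1
  have h4 := abs_le.1 hdiff
  rw [abs_le]
  constructor <;> linarith [h2.1, h2.2, h3.1, h3.2, h4.1, h4.2]

end SLP

end Pool.KBX
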